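import Pool.Agent.Q187.Orient.Eval
import Pool.Agent.Q187.Orient.CompA
import Pool.Agent.Q187.Orient.CompB

/-!
# MP_89dd65_gt: the configuration of powers of a root of unity is not a maximiser

For `n = 6` (so that `2n+1 = 13` is prime and all points of `θ*` are distinct in every coordinate)
`|Θ_6(θ*)| = 4206592 π⁶/13!`, whereas the configuration with coordinates
`ζ^j, ζ^j, ζ^{3j}, ζ^{3j}, ζ^{4j}, ζ^{4j}` has `|Θ_6| = 11860992 π⁶/13!`.

The alternated chain sum over `13!` permutations is reduced, inside the exterior algebra, to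
`13 · 2⁶` times the top coefficient of a product of six two-forms on twelve generators, which is
evaluated by the kernel.
-/

set_option autoImplicit false

open Real Equiv
open scoped BigOperators

namespace Pool.Agent.Results.MP_89dd65_gt.NotMaximal

/-- `z₀, z₁, z₂` are distinct points of the circle in counterclockwise cyclic order. -/
def IsCCW (z₀ z₁ z₂ : Circle) : Prop :=
  ∃ t₀ t₁ t₂ : ℝ, t₀ < t₁ ∧ t₁ < t₂ ∧ t₂ < t₀ + 2 * π ∧
    Circle.exp t₀ = z₀ ∧ Circle.exp t₁ = z₁ ∧ Circle.exp t₂ = z₂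

open Classical in
/-- The orientation cocycle: `1` on triples in counterclockwise cyclic order, `-1` on triples in
clockwise cyclic order, `0` otherwise. -/
noncomputable def orient (z₀ z₁ z₂ : Circle) : ℝ :=
  if IsCCW z₀ z₁ z₂ then 1 else if IsCCW z₂ z₁ z₀ then -1 else 0

/-- The cochain `Θ_n`; `θ j i` is the `i`-th coordinate (`0 ≤ i < n`) of the `j`-th point of the
torus. -/
noncomputable def Theta (n : ℕ) (θ : Fin (2 * n + 1) → Fin n → Circle) : ℝ :=
  π ^ n / ((2 * n + 1).factorial : ℝ) *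
    ∑ σ : Perm (Fin (2 * n + 1)), ((Perm.sign σ : ℤ) : ℝ) * ∏ i : Fin n,
      orient (θ (σ ⟨2 * i, by omega⟩) i) (θ (σ ⟨2 * i + 1, by omega⟩) i)
        (θ (σ ⟨2 * i + 2, by omega⟩) i)

/-- The configuration `θ*`: the `k`-th coordinate (`1 ≤ k ≤ n`) of the `j`-th point is `ζ^{kj}` with
`ζ = exp(2πi/(2n+1))`. -/
noncomputable def thetaStar (n : ℕ) : Fin (2 * n + 1) → Fin n → Circle :=
  fun j k => Circle.exp (2 * π / (2 * n + 1)) ^ (((k : ℕ) + 1) * (j : ℕ))

/-! ## The orientation cocycle on roots of unity -/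

/-- twice the signed area -/
noncomputable def area (z₀ z₁ z₂ : Circle) : ℝ :=
  (starRingEnd ℂ (z₀ : ℂ) * z₁ + starRingEnd ℂ (z₁ : ℂ) * z₂ + starRingEnd ℂ (z₂ : ℂ) * z₀).im

lemma conj_mul_im (s t : ℝ) :
    (starRingEnd ℂ (Circle.exp s : ℂ) * (Circle.exp t : ℂ)).im = sin (t - s) := by
  rw [Circle.coe_exp, Circle.coe_exp, ← Complex.exp_conj, ← Complex.exp_add]
  have : (starRingEnd ℂ) ((s : ℂ) * Complex.I) + (t : ℂ) * Complex.I =
      ((t - s : ℝ) : ℂ) * Complex.I := by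
    simp
    ring
  rw [this, Complex.exp_ofReal_mul_I_im]

lemma area_swap (z₀ z₁ z₂ : Circle) : area z₂ z₁ z₀ = -area z₀ z₁ z₂ := by
  unfold area
  simp only [Complex.add_im, Complex.mul_im, Complex.conj_re, Complex.conj_im]
  ring

lemma area_pos {z₀ z₁ z₂ : Circle} (h : IsCCW z₀ z₁ z₂) : 0 < area z₀ z₁ z₂ := by
  obtain ⟨t₀, t₁, t₂, h01, h12, h20, rfl, rfl, rfl⟩ := h
  have e : area (Circle.exp t₀) (Circle.exp t₁) (Circle.exp t₂) =
      sin (t₁ - t₀) + sin (t₂ - t₁) + sin (t₀ - t₂) := by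
    unfold area
    rw [Complex.add_im, Complex.add_im, conj_mul_im, conj_mul_im, conj_mul_im]
  rw [e]
  set x := (t₁ - t₀) / 2 with hx
  set y := (t₂ - t₁) / 2 with hy
  have hx1 : t₁ - t₀ = 2 * x := by rw [hx]; ring
  have hy1 : t₂ - t₁ = 2 * y := by rw [hy]; ring
  have hxy : t₀ - t₂ = -(2 * (x + y)) := by rw [hx, hy]; ring
  have key : sin (2 * x) + sin (2 * y) + sin (-(2 * (x + y))) =
      4 * (sin x * sin y * sin (x + y)) := by
    rw [sin_neg, sin_two_mul, sin_two_mul, sin_two_mul, sin_add, cos_add]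
    have h1 := sin_sq_add_cos_sq x
    have h2 := sin_sq_add_cos_sq y
    have c1 : cos x ^ 2 = 1 - sin x ^ 2 := by linarith
    have c2 : cos y ^ 2 = 1 - sin y ^ 2 := by linarith
    linear_combination (-2 * sin y * cos y) * c1 + (-2 * sin x * cos x) * c2
  rw [hx1, hy1, hxy, key]
  have p1 : 0 < sin x := sin_pos_of_pos_of_lt_pi (by linarith) (by linarith)
  have p2 : 0 < sin y := sin_pos_of_pos_of_lt_pi (by linarith) (by linarith)
  have p3 : 0 < sin (x + y) := sin_pos_of_pos_of_lt_pi (by linarith) (by linarith)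
  positivity

lemma not_ccw_swap {z₀ z₁ z₂ : Circle} (h : IsCCW z₀ z₁ z₂) : ¬ IsCCW z₂ z₁ z₀ := by
  intro h'
  have h1 := area_pos h
  have h2 := area_pos h'
  rw [area_swap] at h2
  linarith

lemma ccw_rot {z₀ z₁ z₂ : Circle} (h : IsCCW z₀ z₁ z₂) : IsCCW z₁ z₂ z₀ := by
  obtain ⟨t₀, t₁, t₂, h01, h12, h20, rfl, rfl, rfl⟩ := h
  exact ⟨t₁, t₂, t₀ + 2 * π, h12, h20, by linarith, rfl, rfl, Circle.exp_add_two_pi t₀⟩

lemma orient_of_ccw {z₀ z₁ z₂ : Circle} (h : IsCCW z₀ z₁ z₂) : orient z₀ z₁ z₂ = 1 := by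
  unfold orient; rw [if_pos h]

lemma orient_of_cw {z₀ z₁ z₂ : Circle} (h : IsCCW z₂ z₁ z₀) : orient z₀ z₁ z₂ = -1 := by
  unfold orient; rw [if_neg (not_ccw_swap h), if_pos h]

lemma orient_of_area {z₀ z₁ z₂ : Circle} (h : area z₀ z₁ z₂ = 0) : orient z₀ z₁ z₂ = 0 := by
  unfold orient
  rw [if_neg, if_neg]
  · intro h'
    have := area_pos h'
    rw [area_swap, h] at this
    simp at this
  · intro h'
    have := area_pos h'
    rw [h] at this
    exact lt_irrefl _ this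

/-- the thirteenth roots of unity -/
noncomputable def rt (a : ℕ) : Circle := Circle.exp (2 * π * a / 13)

lemma ccw_rt {a b c : ℕ} (hab : a < b) (hbc : b < c) (hc : c < 13) :
    IsCCW (rt a) (rt b) (rt c) := by
  refine ⟨2 * π * a / 13, 2 * π * b / 13, 2 * π * c / 13, ?_, ?_, ?_, rfl, rfl, rfl⟩
  · have : (a : ℝ) < b := by exact_mod_cast hab
    have := mul_lt_mul_of_pos_left this two_pi_pos
    linarith
  · have : (b : ℝ) < c := by exact_mod_cast hbc
    have := mul_lt_mul_of_pos_left this two_pi_pos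
    linarith
  · have h1 : (c : ℝ) < 13 := by exact_mod_cast hc
    have h2 : (0 : ℝ) ≤ a := Nat.cast_nonneg a
    have := mul_lt_mul_of_pos_left h1 two_pi_pos
    have := mul_nonneg two_pi_pos.le h2
    linarith

/-- sign of `b - a` -/
def sg (a b : ℕ) : ℤ := if a < b then 1 else if b < a then -1 else 0

/-- cyclic orientation of three residues -/
def cyc (a b c : ℕ) : ℤ := sg a b + sg b c + sg c a

lemma orient_rt {a b c : ℕ} (ha : a < 13) (hb : b < 13) (hc : c < 13) :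
    orient (rt a) (rt b) (rt c) = (cyc a b c : ℝ) := by
  have z1 : ∀ x y : Circle, area x x y = 0 := by
    intro x y
    unfold area
    simp only [Complex.add_im, Complex.mul_im, Complex.conj_re, Complex.conj_im]
    ring
  have z2 : ∀ x y : Circle, area x y y = 0 := by
    intro x y
    unfold area
    simp only [Complex.add_im, Complex.mul_im, Complex.conj_re, Complex.conj_im]
    ring
  have z3 : ∀ x y : Circle, area x y x = 0 := by
    intro x y
    unfold area
    simp only [Complex.add_im, Complex.mul_im, Complex.conj_re, Complex.conj_im]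
    ring
  unfold cyc sg
  rcases lt_trichotomy a b with h1 | rfl | h1
  · rcases lt_trichotomy b c with h2 | rfl | h2
    · rw [orient_of_ccw (ccw_rt h1 h2 hc)]
      simp [h1, h2, (h1.trans h2).not_gt, h1.trans h2]
    · rw [orient_of_area (z2 _ _)]
      simp [h1, h1.not_gt]
    · rcases lt_trichotomy a c with h3 | rfl | h3
      · -- a < c < b
        rw [orient_of_cw (ccw_rot (ccw_rt h3 h2 hb))]
        simp [h1, h2, h3, h1.not_gt, h2.not_gt, h3.not_gt]
      · rw [orient_of_area (z3 _ _)]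
        simp [h1, h1.not_gt]
      · -- c < a < b
        rw [orient_of_ccw (ccw_rot (ccw_rt h3 h1 hb))]
        simp [h1, h2, h3, h1.not_gt, h2.not_gt, h3.not_gt]
  · rw [orient_of_area (z1 _ _)]
    rcases lt_trichotomy a c with h2 | rfl | h2
    · simp [h2, h2.not_gt]
    · simp
    · simp [h2, h2.not_gt]
  · rcases lt_trichotomy b c with h2 | rfl | h2
    · rcases lt_trichotomy a c with h3 | rfl | h3
      · -- b < a < c
        rw [orient_of_cw (z₀ := rt a) (z₁ := rt b) (z₂ := rt c)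
          (ccw_rot (ccw_rot (ccw_rt h1 h3 hc)))]
        simp [h1, h2, h3, h1.not_gt, h2.not_gt, h3.not_gt]
      · rw [orient_of_area (z3 _ _)]
        simp [h1, h1.not_gt]
      · -- b < c < a
        rw [orient_of_ccw (ccw_rot (ccw_rot (ccw_rt h2 h3 ha)))]
        simp [h1, h2, h3, h1.not_gt, h2.not_gt, h3.not_gt]
    · rw [orient_of_area (z2 _ _)]
      simp [h1, h1.not_gt]
    · -- c < b < a
      rw [orient_of_cw (ccw_rt h2 h1 ha)]
      simp [h1, h2, h1.not_gt, h2.not_gt, h2.trans h1, (h2.trans h1).not_gt]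

/-! ## The configurations -/

lemma exp_pow (x : ℝ) (m : ℕ) : Circle.exp x ^ m = Circle.exp (m * x) := by
  induction m with
  | zero => simp
  | succ m ih =>
    rw [pow_succ, ih, ← Circle.exp_add]
    congr 1
    push_cast
    ring

/-- The configuration with the multipliers `q`. -/
noncomputable def conf (q : Fin 6 → ℕ) : Fin (2 * 6 + 1) → Fin 6 → Circle :=
  fun j k => Circle.exp (2 * π / (2 * (6 : ℕ) + 1)) ^ (q k * (j : ℕ))

lemma conf_rt (q : Fin 6 → ℕ) (j : Fin (2 * 6 + 1)) (k : Fin 6) :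
    conf q j k = rt ((q k * (j : ℕ)) % 13) := by
  unfold conf rt
  rw [exp_pow]
  have h1 : (q k * (j : ℕ)) = (q k * (j : ℕ)) % 13 + 13 * ((q k * (j : ℕ)) / 13) :=
    (Nat.mod_add_div _ _).symm
  set r := (q k * (j : ℕ)) % 13 with hr
  set d := (q k * (j : ℕ)) / 13 with hd
  rw [h1]
  have h2 : (((r + 13 * d : ℕ) : ℝ)) * (2 * π / (2 * ((6 : ℕ) : ℝ) + 1)) =
      2 * π * r / 13 + d * (2 * π) := by
    push_cast
    ring
  rw [h2, Circle.exp_add, ← exp_pow, Circle.exp_two_pi, one_pow, mul_one]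

lemma sb_anti : ∀ q : Fin 7, q ≠ 0 → ∀ x y : Fin 13,
    Q187.Orient.sb q x y = -Q187.Orient.sb q y x := by decide +kernel

lemma cc_sb : ∀ q : Fin 7, q ≠ 0 → ∀ x y z : Fin 13,
    Q187.Orient.cc (Q187.Orient.sb q) x y z =
      cyc (((q : ℕ) * x) % 13) (((q : ℕ) * y) % 13) (((q : ℕ) * z) % 13) := by decide +kernel

lemma Theta_conf (q : Fin 6 → ℕ) (hq : ∀ i, q i < 7 ∧ q i ≠ 0) (c : ℤ)
    (hc : Q187.Orient.T.isChain 12 (Q187.Orient.W6 q) c = true) :
    Theta 6 (conf q) = π ^ 6 / ((2 * 6 + 1).factorial : ℝ) * (13 * 64 * c : ℤ) := by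
  have hq' : ∀ i, (⟨q i, (hq i).1⟩ : Fin 7) ≠ 0 := by
    intro i h
    apply (hq i).2
    rw [Fin.ext_iff] at h
    exact h
  have h1 := Q187.Orient.eval q c (fun i => sb_anti ⟨q i, (hq i).1⟩ (hq' i)) hc
  have h2 : ∀ σ : Perm (Fin (2 * 6 + 1)), (∏ i : Fin 6,
      orient (conf q (σ ⟨2 * i, by omega⟩) i) (conf q (σ ⟨2 * i + 1, by omega⟩) i)
        (conf q (σ ⟨2 * i + 2, by omega⟩) i)) =
      ((Q187.Orient.coef 6 (fun i => Q187.Orient.sb (q i)) σ : ℤ) : ℝ) := by
    intro σ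
    unfold Q187.Orient.coef
    rw [Int.cast_prod]
    refine Finset.prod_congr rfl fun i _ => ?_
    rw [conf_rt, conf_rt, conf_rt, orient_rt (Nat.mod_lt _ (by norm_num))
      (Nat.mod_lt _ (by norm_num)) (Nat.mod_lt _ (by norm_num))]
    rw [← cc_sb ⟨q i, (hq i).1⟩ (hq' i)]
  have h3 : (∑ σ : Perm (Fin (2 * 6 + 1)), ((Perm.sign σ : ℤ) : ℝ) * ∏ i : Fin 6,
      orient (conf q (σ ⟨2 * i, by omega⟩) i) (conf q (σ ⟨2 * i + 1, by omega⟩) i)
        (conf q (σ ⟨2 * i + 2, by omega⟩) i)) = ((13 * 64 * c : ℤ) : ℝ) := by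
    rw [← h1, Int.cast_sum]
    refine Finset.sum_congr rfl fun σ _ => ?_
    rw [h2, Int.cast_mul]
  show π ^ 6 / ((2 * 6 + 1).factorial : ℝ) * _ = _
  rw [h3]

lemma abs_orient_le (z₀ z₁ z₂ : Circle) : |orient z₀ z₁ z₂| ≤ 1 := by
  unfold orient
  split_ifs <;> simp

lemma Theta_bdd (n : ℕ) :
    BddAbove (Set.range fun θ : Fin (2 * n + 1) → Fin n → Circle => |Theta n θ|) := by
  refine ⟨|π ^ n / ((2 * n + 1).factorial : ℝ)| *
    ∑ _σ : Perm (Fin (2 * n + 1)), (1 : ℝ), ?_⟩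
  rintro _ ⟨θ, rfl⟩
  show |Theta n θ| ≤ _
  unfold Theta
  rw [abs_mul]
  apply mul_le_mul_of_nonneg_left _ (abs_nonneg _)
  refine (Finset.abs_sum_le_sum_abs _ _).trans (Finset.sum_le_sum fun σ _ => ?_)
  rw [abs_mul, Finset.abs_prod]
  have h1 : |((Perm.sign σ : ℤ) : ℝ)| = 1 := by
    rcases Int.units_eq_one_or (Perm.sign σ) with h | h <;> simp [h]
  rw [h1, one_mul]
  apply Finset.prod_le_one
  · intro i _; exact abs_nonneg _
  · intro i _; exact abs_orient_le _ _ _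

/-- **The supremum of `|Θ_n|` is not attained at `θ*` for `n = 6`**: it is more than `2.8` times
larger than `|Θ_6(θ*)|`. -/
theorem result :
    14 / 5 * |Theta 6 (thetaStar 6)| <
      ⨆ θ : Fin (2 * 6 + 1) → Fin 6 → Circle, |Theta 6 θ| := by
  have hA := Theta_conf ![1, 2, 3, 4, 5, 6] (by decide) 5056 Q187.Orient.compA
  have hB := Theta_conf ![1, 1, 3, 3, 4, 4] (by decide) (-14256) Q187.Orient.compB
  have hstar : thetaStar 6 = conf ![1, 2, 3, 4, 5, 6] := by
    funext j k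
    unfold thetaStar conf
    congr 2
    fin_cases k <;> rfl
  have hle := le_ciSup (Theta_bdd 6) (conf ![1, 1, 3, 3, 4, 4])
  refine lt_of_lt_of_le ?_ hle
  show 14 / 5 * |Theta 6 (thetaStar 6)| < |Theta 6 (conf ![1, 1, 3, 3, 4, 4])|
  rw [hstar, hA, hB, abs_mul, abs_mul]
  have hpos : 0 < |π ^ 6 / ((2 * 6 + 1).factorial : ℝ)| := by
    apply abs_pos.2
    positivity
  have h1 : |(((13 * 64 * 5056 : ℤ)) : ℝ)| = 4206592 := by norm_num
  have h2 : |(((13 * 64 * (-14256) : ℤ)) : ℝ)| = 11860992 := by norm_num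
  rw [h1, h2]
  nlinarith

end Pool.Agent.Results.MP_89dd65_gt.NotMaximal
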